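import Pool.Agent.Lib.MP_19d7db_an_S.Defs

/-!
# Successive confinement: definition
-/

open Complex Set

namespace Pool.Agent.Lib.MP_19d7db_an

/-- A list of half planes `{x | ⟪u, x⟫ ≤ c}`, given as pairs `(u, c)`, the last one of the list is
the first step.  In every step the inner normal components of `u ≠ 0` are nonnegative at all points
of the neutral sides (of the polygon with the vertices `p i`, dispersive sides `D`) which lie in
the half planes of the earlier steps and outside of the new half plane `⟪u, x⟫ ≤ c`. -/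
def Confines {n : ℕ} (p : ZMod n → ℂ) (D : Set (ZMod n)) : List (ℂ × ℝ) → Prop
  | [] => True
  | q :: l => Confines p D l ∧ q.1 ≠ 0 ∧ ∀ j, j ∉ D → ∀ x ∈ openSegment ℝ (p j) (p (j + 1)),
      (∀ q' ∈ l, dt q'.1 x ≤ q'.2) → q.2 < dt q.1 x → 0 ≤ cr (p (j + 1) - p j) q.1

end Pool.Agent.Lib.MP_19d7db_an
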