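import Pool.Agent.Lib.MP_19d7db_an_P.Peel
import Pool.Agent.Lib.MP_19d7db_an_S.Exists

/-!
# Semi-dispersive simple polygons: a force field on the confined region
-/

open Complex Set Filter Topology MeasureTheory

namespace Pool.Agent.Lib.MP_19d7db_an

variable {n : ℕ}

namespace SG

variable {Y : Dom n} {C η : ℝ} (hg : SG Y C η)

include hg

/-- As `null_of_force`, with the condition on the force field only at the points of a set which
contains almost all infinite neutral orbits. -/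
theorem null_of_force_on [NeZero n] {a b : ℂ} (hab : a ≠ 0 ∨ b ≠ 0) (hb : 0 ≤ b.re) {R : Set ℂ}
    (hR : ∀ i, ∀ᵐ w : ℝ × ℝ, w ∈ Y.S i → Y.pos i w.1 ∈ R)
    (hcomb : ∀ j, j ∉ Y.D → ∀ s ∈ Ioo 0 (Y.len j), Y.pos j s ∈ R →
      0 ≤ cr (Y.e j) (a + b * Y.pos j s)) (i : ZMod n) : volume (Y.S i) = 0 := by
  obtain ⟨M, hM0, hM⟩ := hg.exists_bound
  -- the function
  set G : ZMod n → ℝ × ℝ → ℝ := fun i w => dt (Y.dir (i, w)) (a + b * Y.pos i w.1) with hG
  have hcdt : ∀ {g h : ℝ × ℝ → ℂ}, Continuous g → Continuous h →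
      Continuous fun w => dt (g w) (h w) := by
    intro g h hg hh
    unfold dt
    exact ((Complex.continuous_re.comp hg).mul (Complex.continuous_re.comp hh)).add
      ((Complex.continuous_im.comp hg).mul (Complex.continuous_im.comp hh))
  have hGm : ∀ i, Measurable (G i) := by
    intro i
    have h1 : Continuous fun w : ℝ × ℝ => Y.dir (i, w) := continuous_dir i
    have h2 : Continuous fun w : ℝ × ℝ => Y.pos i w.1 := (hg.continuous_pos i).comp continuous_fst
    exact (hcdt h1 (continuous_const.add (continuous_const.mul h2))).measurable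
  have hGK : ∀ i, i ∉ Y.D → ∀ w ∈ Y.Phase i, |G i w| ≤ ‖a‖ + ‖b‖ * M := by
    intro i hi w hw
    have h1 := abs_dt_le (Y.dir (i, w)) (a + b * Y.pos i w.1)
    rw [hg.norm_dir, one_mul] at h1
    have h2 := norm_add_le a (b * Y.pos i w.1)
    rw [norm_mul] at h2
    have h3 := mul_le_mul_of_nonneg_left (hM i hi w.1 hw.1) (norm_nonneg b)
    rw [hG]
    simp only
    linarith
  have hterm : ∀ i j, ∀ᵐ w : ℝ × ℝ, w ∈ Y.S i → w ∈ Y.U i j → ∃ t : ℝ, 0 < t ∧
      Y.pos j (Y.Ψ i j w).1 = Y.pos i w.1 + t * Y.dir (i, w) ∧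
      G j (Y.Ψ i j w) = G i w + t * b.re + 2 * Real.sin (Y.Ψ i j w).2 *
        (cr (Y.e j) (a + b * Y.pos j (Y.Ψ i j w).1) / Y.ℓ j) ∧
      0 ≤ t * b.re ∧ 0 < Real.sin (Y.Ψ i j w).2 ∧
      0 ≤ cr (Y.e j) (a + b * Y.pos j (Y.Ψ i j w).1) := by
    intro i j
    filter_upwards [hg.ae_image hR i j] with w h0 h1 h2
    have h3 := hg.Ψ_mem h1 h2
    have hj := S_neutral h3
    obtain ⟨t, ht, hpos, hd⟩ := hg.gain a b hj (Ψ_spec h2)
    exact ⟨t, ht, hpos, hd, mul_nonneg ht.le hb, hg.sin_pos_of_phase h3.1,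
      hcomb j hj _ h3.1.1 (h0 h1 h2)⟩
  have heq := hg.recur hGm hGK (fun i j => by
    filter_upwards [hterm i j] with w h0 h1 h2
    obtain ⟨t, ht, hpos, hd, h3, h4, h5⟩ := h0 h1 h2
    have h6 : 0 ≤ 2 * Real.sin (Y.Ψ i j w).2 *
        (cr (Y.e j) (a + b * Y.pos j (Y.Ψ i j w).1) / Y.ℓ j) :=
      mul_nonneg (by linarith) (div_nonneg h5 (hg.ell_pos j).le)
    linarith)
  -- both terms vanish
  have hzero : ∀ i j, ∀ᵐ w : ℝ × ℝ, w ∈ Y.S i → w ∈ Y.U i j → b.re = 0 ∧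
      cr (Y.e j) (a + b * Y.pos j (Y.Ψ i j w).1) = 0 := by
    intro i j
    filter_upwards [heq i j, hterm i j] with w h0 h00 h1 h2
    obtain ⟨t, ht, hpos, hd, h3, h4, h5⟩ := h00 h1 h2
    have hℓ := hg.ell_pos j
    have h6 : 0 ≤ 2 * Real.sin (Y.Ψ i j w).2 *
        (cr (Y.e j) (a + b * Y.pos j (Y.Ψ i j w).1) / Y.ℓ j) :=
      mul_nonneg (by linarith) (div_nonneg h5 hℓ.le)
    have h7 := h0 h1 h2
    have h8 : t * b.re = 0 := by linarith
    have h9 : 2 * Real.sin (Y.Ψ i j w).2 *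
        (cr (Y.e j) (a + b * Y.pos j (Y.Ψ i j w).1) / Y.ℓ j) = 0 := by linarith
    refine ⟨(mul_eq_zero.1 h8).resolve_left ht.ne', ?_⟩
    have h10 := (mul_eq_zero.1 h9).resolve_left (by linarith)
    exact (div_eq_zero_iff.1 h10).resolve_right hℓ.ne'
  -- it is enough to exclude the phase points with image on a given component
  suffices hkey : ∀ i j, ∀ᵐ w : ℝ × ℝ, ¬ (w ∈ Y.S i ∧ w ∈ Y.U i j) by
    apply measure_mono_null (S_sub i)
    rw [measure_iUnion_null_iff]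
    intro j
    have := hkey i j
    rw [ae_iff] at this
    simp only [not_not] at this
    exact this
  intro i j
  by_cases hbre : b.re = 0
  swap
  · filter_upwards [hzero i j] with w h1 h2
    exact hbre (h1 h2.1 h2.2).1
  by_cases hbim : b.im = 0
  swap
  · -- rotation field
    have hℓ := hg.ell_pos j
    have hβ : b.im * Y.ℓ j ≠ 0 := mul_ne_zero hbim hℓ.ne'
    have h1 := hg.null_preimage i j
      (null_affine (cr (Y.e j) (a + b * Y.p j)) hβ)
    have h2 : ∀ᵐ w : ℝ × ℝ, ¬ ∃ w' ∈ {w : ℝ × ℝ |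
        cr (Y.e j) (a + b * Y.p j) + w.1 * (b.im * Y.ℓ j) = 0}, Y.Hit (i, w) (j, w') := by
      rw [ae_iff]
      simpa only [not_not] using h1
    filter_upwards [hzero i j, h2] with w h3 h4 h5
    apply h4
    refine ⟨Y.Ψ i j w, ?_, Ψ_spec h5.2⟩
    have hj := S_neutral (hg.Ψ_mem h5.1 h5.2)
    have h6 := (h3 h5.1 h5.2).2
    change cr (Y.e j) (a + b * Y.p j) + (Y.Ψ i j w).1 * (b.im * Y.ℓ j) = 0
    rw [← h6, Y.pos_N hj]
    have h7 : (Y.e j).re * (Y.e j).re + (Y.e j).im * (Y.e j).im = Y.ℓ j ^ 2 := by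
      rw [Table.ℓ, ← dt_self]; rfl
    have h8 : a + b * (Y.p j + ((Y.Ψ i j w).1 : ℂ) * (Y.e j / Y.ℓ j)) =
        a + b * Y.p j + (((Y.Ψ i j w).1 / Y.ℓ j : ℝ) : ℂ) * (b * Y.e j) := by
      push_cast; ring
    rw [h8, cr_add_right (Y.e j) (a + b * Y.p j), cr_smul_right]
    have h9 : cr (Y.e j) (b * Y.e j) = b.im * Y.ℓ j ^ 2 := by
      rw [← h7]
      simp only [cr, mul_re, mul_im]
      rw [hbre]
      ring
    rw [h9]
    field_simp
  -- constant field
  have hb0 : b = 0 := Complex.ext hbre hbim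
  have ha0 : a ≠ 0 := by
    rcases hab with h | h
    · exact h
    · exact absurd hb0 h
  set G₂ : ZMod n → ℝ × ℝ → ℝ := fun i w => dt (Y.dir (i, w)) a * dt a (Y.pos i w.1) with hG₂
  have hG₂m : ∀ i, Measurable (G₂ i) := by
    intro i
    have h1 : Continuous fun w : ℝ × ℝ => Y.dir (i, w) := continuous_dir i
    have h2 : Continuous fun w : ℝ × ℝ => Y.pos i w.1 := (hg.continuous_pos i).comp continuous_fst
    exact ((hcdt h1 continuous_const).mul (hcdt continuous_const h2)).measurable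
  have hG₂K : ∀ i, i ∉ Y.D → ∀ w ∈ Y.Phase i, |G₂ i w| ≤ ‖a‖ * (‖a‖ * M) := by
    intro i hi w hw
    have h1 := abs_dt_le (Y.dir (i, w)) a
    rw [hg.norm_dir, one_mul] at h1
    have h2 := abs_dt_le a (Y.pos i w.1)
    have h3 := mul_le_mul_of_nonneg_left (hM i hi w.1 hw.1) (norm_nonneg a)
    rw [hG₂]
    simp only
    rw [abs_mul]
    exact mul_le_mul h1 (h2.trans h3) (abs_nonneg _) (norm_nonneg _)
  have hstep : ∀ i j, ∀ᵐ w : ℝ × ℝ, w ∈ Y.S i → w ∈ Y.U i j → ∃ t : ℝ, 0 < t ∧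
      G₂ j (Y.Ψ i j w) = G₂ i w + t * dt (Y.dir (i, w)) a ^ 2 := by
    intro i j
    filter_upwards [heq i j, hterm i j] with w h0 h00 h1 h2
    obtain ⟨t, ht, hpos, -, -, -, -⟩ := h00 h1 h2
    refine ⟨t, ht, ?_⟩
    have h3 := h0 h1 h2
    rw [hG] at h3
    simp only at h3
    rw [hb0, zero_mul, zero_mul, add_zero] at h3
    rw [hG₂]
    simp only
    rw [← h3, hpos, dt_add_right, dt_smul_right, dt_comm a (Y.dir (i, w))]
    ring
  have heq₂ := hg.recur hG₂m hG₂K (fun i j => by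
    filter_upwards [hstep i j] with w h0 h1 h2
    obtain ⟨t, ht, h3⟩ := h0 h1 h2
    have : 0 ≤ t * dt (Y.dir (i, w)) a ^ 2 := by positivity
    linarith)
  have hnull : ∀ᵐ w : ℝ × ℝ, ¬ (w ∈ Y.Phase i ∧ cr (Y.dir (i, w)) (I * a) = 0) := by
    rw [ae_iff]
    simpa only [not_not] using hg.null_parallel (mul_ne_zero I_ne_zero ha0) i
  filter_upwards [hstep i j, heq₂ i j, hnull] with w h1 h2 h3 h4
  apply h3
  refine ⟨h4.1.1, ?_⟩
  obtain ⟨t, ht, h5⟩ := h1 h4.1 h4.2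
  have h6 := h2 h4.1 h4.2
  rw [cr_I_right]
  have h7 : t * dt (Y.dir (i, w)) a ^ 2 = 0 := by linarith
  exact pow_eq_zero_iff (two_ne_zero) |>.1 ((mul_eq_zero.1 h7).resolve_left ht.ne')

end SG

/-- Successive confinement and a force field on the rest. -/
theorem hyperbolic_of_confines (n : ℕ) (hn : 3 ≤ n) (p : ZMod n → ℂ) (Ω : Set ℂ)
    (hdom : PolyDom p Ω) (D : Set (ZMod n)) (l : List (ℂ × ℝ)) (hl : Confines p D l) (a b : ℂ)
    (hab : a ≠ 0 ∨ b ≠ 0) (hb : 0 ≤ b.re)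
    (hF : ∀ j, j ∉ D → ∀ x ∈ openSegment ℝ (p j) (p (j + 1)), (∀ q ∈ l, dt q.1 x ≤ q.2) →
      0 ≤ cr (p (j + 1) - p j) (a + b * x)) :
    ∃ R : ℝ, ∀ ρ : ZMod n → ℝ, (∀ k ∈ D, R ≤ ρ k) →
      (Dom.mk (Table.mk p D ρ) Ω).Hyperbolic := by
  have : NeZero n := ⟨by omega⟩
  obtain ⟨R, hR⟩ := exists_sg hn p Ω hdom D
  refine ⟨R, fun ρ hρ => ?_⟩
  obtain ⟨C, η, hg⟩ := hR ρ hρ
  exact hg.hyperbolic_of_ae fun i => hg.null_of_force_on hab hb (hg.confines l hl)
    (fun j hj s hs hx => hF j hj _ (hg.mem_openSegment hj hs) hx) i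

/-- Polygons with a waist. -/
theorem hyperbolic_of_waist (n : ℕ) (hn : 3 ≤ n) (p : ZMod n → ℂ) (Ω : Set ℂ)
    (hdom : PolyDom p Ω) (D : Set (ZMod n)) (u : ℂ) (hu : u ≠ 0) (c : ℝ)
    (hw : ∀ j, j ∉ D → (c ≤ dt u (p j) ∧ c ≤ dt u (p (j + 1)) ∧ 0 ≤ cr (p (j + 1) - p j) u) ∨
      (dt u (p j) ≤ c ∧ dt u (p (j + 1)) ≤ c ∧ cr (p (j + 1) - p j) u ≤ 0)) :
    ∃ R : ℝ, ∀ ρ : ZMod n → ℝ, (∀ k ∈ D, R ≤ ρ k) →
      (Dom.mk (Table.mk p D ρ) Ω).Hyperbolic := by
  have hseg : ∀ j x, x ∈ openSegment ℝ (p j) (p (j + 1)) → ∃ r s : ℝ, 0 < r ∧ 0 < s ∧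
      r + s = 1 ∧ dt u x = r * dt u (p j) + s * dt u (p (j + 1)) := by
    intro j x hx
    obtain ⟨r, s, hr, hs, hrs, rfl⟩ := hx
    refine ⟨r, s, hr, hs, hrs, ?_⟩
    simp only [dt, add_re, add_im, real_smul, mul_re, mul_im, ofReal_re, ofReal_im]
    ring
  have hneg : ∀ x, dt (-u) x = -dt u x := by
    intro x
    simp only [dt, neg_re, neg_im]
    ring
  have hcneg : ∀ z, cr z (-u) = -cr z u := by
    intro z
    simp only [cr, neg_re, neg_im]
    ring
  refine hyperbolic_of_confines n hn p Ω hdom D [(-u, -c), (u, c)] ?_ (I * u) 0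
    (Or.inl (mul_ne_zero I_ne_zero hu)) le_rfl ?_
  · refine ⟨⟨trivial, hu, ?_⟩, neg_ne_zero.2 hu, ?_⟩
    · intro j hj x hx _ hc
      obtain ⟨r, s, hr, hs, hrs, hd⟩ := hseg j x hx
      rcases hw j hj with h | h
      · exact h.2.2
      · exfalso
        have h1 := mul_le_mul_of_nonneg_left h.1 hr.le
        have h2 := mul_le_mul_of_nonneg_left h.2.1 hs.le
        have h3 : r * c + s * c = c := by rw [← add_mul, hrs, one_mul]
        simp only at hc
        linarith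
    · intro j hj x hx _ hc
      obtain ⟨r, s, hr, hs, hrs, hd⟩ := hseg j x hx
      rcases hw j hj with h | h
      · exfalso
        have h1 := mul_le_mul_of_nonneg_left h.1 hr.le
        have h2 := mul_le_mul_of_nonneg_left h.2.1 hs.le
        have h3 : r * c + s * c = c := by rw [← add_mul, hrs, one_mul]
        simp only at hc
        rw [hneg] at hc
        linarith
      · simp only
        rw [hcneg]
        linarith [h.2.2]
  · intro j hj x hx hq
    have h1 := hq (-u, -c) (by simp)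
    have h2 := hq (u, c) (by simp)
    simp only at h1 h2
    rw [hneg] at h1
    have h3 : dt u x = c := le_antisymm h2 (by linarith)
    obtain ⟨r, s, hr, hs, hrs, hd⟩ := hseg j x hx
    have hsum : r * (dt u (p j) - c) + s * (dt u (p (j + 1)) - c) = 0 := by
      have h4 : r * c + s * c = c := by rw [← add_mul, hrs, one_mul]
      linarith
    have hboth : dt u (p j) = c ∧ dt u (p (j + 1)) = c := by
      rcases hw j hj with h | h
      · have e1 := mul_nonneg hr.le (sub_nonneg.2 h.1)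
        have e2 := mul_nonneg hs.le (sub_nonneg.2 h.2.1)
        have e3 : r * (dt u (p j) - c) = 0 := by linarith
        have e4 : s * (dt u (p (j + 1)) - c) = 0 := by linarith
        exact ⟨by linarith [(mul_eq_zero.1 e3).resolve_left hr.ne'],
          by linarith [(mul_eq_zero.1 e4).resolve_left hs.ne']⟩
      · have e1 := mul_nonneg hr.le (sub_nonneg.2 h.1)
        have e2 := mul_nonneg hs.le (sub_nonneg.2 h.2.1)
        have e3 : r * (dt u (p j) - c) = 0 := by linarith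
        have e4 : s * (dt u (p (j + 1)) - c) = 0 := by linarith
        exact ⟨by linarith [(mul_eq_zero.1 e3).resolve_left hr.ne'],
          by linarith [(mul_eq_zero.1 e4).resolve_left hs.ne']⟩
    have h5 : cr (p (j + 1) - p j) (I * u + 0 * x) = dt u (p (j + 1)) - dt u (p j) := by
      simp only [cr, dt, sub_re, sub_im, add_re, add_im, mul_re, mul_im, I_re, I_im, zero_re,
        zero_im]
      ring
    rw [h5, hboth.1, hboth.2, sub_self]

end Pool.Agent.Lib.MP_19d7db_an
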