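import Pool.Agent.Lib.MP_19d7db_an_S.Convex

/-!
# Hyperbolicity of semi-dispersive simple polygons with a force field

`Table n` is the data of a semi-dispersive polygon (vertices, dispersive sides, radii),
`PolyDom p Ω` says that `Ω` is the interior of the simple polygon with the vertices `p i` in
counterclockwise order, and `Dom.Hyperbolic` says that the billiard map has an invariant cone
field; see `Pool.Agent.Lib.MP_19d7db_an.Defs` and `Pool.Agent.Lib.MP_19d7db_an_S.Defs`.
-/

namespace Pool.Agent.Lib.MP_19d7db_an.ForceFieldOld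

open Pool.Agent.Lib.MP_19d7db_an

theorem general (n : ℕ) (hn : 3 ≤ n) (p : ZMod n → ℂ) (Ω : Set ℂ) (hdom : PolyDom p Ω)
    (D : Set (ZMod n)) (a b : ℂ) (hab : a ≠ 0 ∨ b ≠ 0) (hb : 0 ≤ b.re)
    (hF : ∀ i, i ∉ D → 0 ≤ cr (p (i + 1) - p i) (a + b * p i) ∧
      0 ≤ cr (p (i + 1) - p i) (a + b * p (i + 1))) :
    ∃ R : ℝ, ∀ ρ : ZMod n → ℝ, (∀ k ∈ D, R ≤ ρ k) →
      (Dom.mk (Table.mk p D ρ) Ω).Hyperbolic := by
  have : NeZero n := ⟨by omega⟩
  obtain ⟨R, hR⟩ := exists_sg hn p Ω hdom D
  refine ⟨R, fun ρ hρ => ?_⟩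
  obtain ⟨C, η, hg⟩ := hR ρ hρ
  exact hg.hyperbolic_of_force hab hb hF

/-- (1) Let `p` be the vertices of a simple polygon with `n ≥ 3` sides, in counterclockwise
order, with interior `Ω`, and let `D` be a set of sides.  Suppose that some nonzero affine field
`F q = a + b q` with `0 ≤ b.re` (a sum of a constant field, a rotation field and an expanding
radial field) has a nonnegative inner normal component on each side outside of `D` (at both
endpoints, hence on the side).  Then for all sufficiently large radii the semi-dispersive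
polygon with dispersive sides `D` is hyperbolic.
(2) In particular this holds for every simple polygon and every choice of the dispersive sides
which leaves at most two sides neutral.
(3) Every strictly convex polygon with vertices in counterclockwise order is admissible in (1) and
(2), with the intersection of the open inner half planes as `Ω`. -/
theorem result :
    (∀ (n : ℕ) (_ : 3 ≤ n) (p : ZMod n → ℂ) (Ω : Set ℂ) (_ : PolyDom p Ω) (D : Set (ZMod n))
      (a b : ℂ) (_ : a ≠ 0 ∨ b ≠ 0) (_ : 0 ≤ b.re)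
      (_ : ∀ i, i ∉ D → 0 ≤ cr (p (i + 1) - p i) (a + b * p i) ∧
        0 ≤ cr (p (i + 1) - p i) (a + b * p (i + 1))),
      ∃ R : ℝ, ∀ ρ : ZMod n → ℝ, (∀ k ∈ D, R ≤ ρ k) →
        (Dom.mk (Table.mk p D ρ) Ω).Hyperbolic) ∧
    (∀ (n : ℕ) (_ : 3 ≤ n) (p : ZMod n → ℂ) (Ω : Set ℂ) (_ : PolyDom p Ω) (D : Set (ZMod n))
      (i j : ZMod n) (_ : ∀ k, k ∉ D → k = i ∨ k = j),
      ∃ R : ℝ, ∀ ρ : ZMod n → ℝ, (∀ k ∈ D, R ≤ ρ k) →
        (Dom.mk (Table.mk p D ρ) Ω).Hyperbolic) ∧
    ∀ (n : ℕ) (_ : 3 ≤ n) (p : ZMod n → ℂ)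
      (_ : ∀ i j, j ≠ i → j ≠ i + 1 → 0 < cr (p (i + 1) - p i) (p j - p i)),
      PolyDom p {x | ∀ i, 0 < cr (p (i + 1) - p i) (x - p i)} := by
  refine ⟨general, ?_, fun n hn p hconv => polyDom_convex hn p hconv⟩
  intro n hn p Ω hdom D i j hij
  have hne : p (i + 1) - p i ≠ 0 := sub_ne_zero.2 (hdom.ne i).symm
  have h0 : cr (p (i + 1) - p i) (p (i + 1) - p i) = 0 := by simp only [cr]; ring
  have h0' : cr (p (i + 1) - p i) (-(p (i + 1) - p i)) = 0 := by
    simp only [cr, Complex.neg_re, Complex.neg_im]; ring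
  have h1 : cr (p (j + 1) - p j) (-(p (i + 1) - p i)) =
      -cr (p (j + 1) - p j) (p (i + 1) - p i) := by
    simp only [cr, Complex.neg_re, Complex.neg_im]; ring
  rcases le_total 0 (cr (p (j + 1) - p j) (p (i + 1) - p i)) with h | h
  · apply general n hn p Ω hdom D (p (i + 1) - p i) 0 (Or.inl hne) le_rfl
    intro k hk
    rw [zero_mul, zero_mul, add_zero, and_self]
    rcases hij k hk with rfl | rfl
    · exact h0.ge
    · exact h
  · apply general n hn p Ω hdom D (-(p (i + 1) - p i)) 0 (Or.inl (neg_ne_zero.2 hne)) le_rfl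
    intro k hk
    rw [zero_mul, zero_mul, add_zero, and_self]
    rcases hij k hk with rfl | rfl
    · exact h0'.ge
    · rw [h1]; linarith

end Pool.Agent.Lib.MP_19d7db_an.ForceFieldOld
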