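import Pool.Agent.Lib.MP_19d7db_an_P.Final

/-!
# Hourglass hexagons
-/

open Complex Set Filter Topology

namespace Pool.Agent.Lib.MP_19d7db_an

/-- The vertices of the hourglass hexagon, in counterclockwise order. -/
def hourglass (h : ℝ) : ZMod 6 → ℂ :=
  ![⟨-1, -1⟩, ⟨0, -h⟩, ⟨1, -1⟩, ⟨1, 1⟩, ⟨0, h⟩, ⟨-1, 1⟩]

/-- The interior of the hourglass hexagon. -/
def hourglassIn (h : ℝ) : Set ℂ := {x | |x.re| < 1 ∧ |x.im| < h + (1 - h) * |x.re|}

theorem mem_seg_iff (a b x : ℂ) : x ∈ segment ℝ a b ↔ ∃ t : ℝ, 0 ≤ t ∧ t ≤ 1 ∧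
    x.re = a.re + t * (b.re - a.re) ∧ x.im = a.im + t * (b.im - a.im) := by
  rw [segment_eq_image']
  constructor
  · rintro ⟨t, ⟨h0, h1⟩, rfl⟩
    refine ⟨t, h0, h1, ?_, ?_⟩ <;> simp
  · rintro ⟨t, h0, h1, h2, h3⟩
    refine ⟨t, ⟨h0, h1⟩, ?_⟩
    apply Complex.ext
    · rw [h2]; simp
    · rw [h3]; simp

theorem mem_oseg_iff (a b x : ℂ) : x ∈ openSegment ℝ a b ↔ ∃ t : ℝ, 0 < t ∧ t < 1 ∧
    x.re = a.re + t * (b.re - a.re) ∧ x.im = a.im + t * (b.im - a.im) := by
  rw [openSegment_eq_image']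
  constructor
  · rintro ⟨t, ⟨h0, h1⟩, rfl⟩
    refine ⟨t, h0, h1, ?_, ?_⟩ <;> simp
  · rintro ⟨t, h0, h1, h2, h3⟩
    refine ⟨t, ⟨h0, h1⟩, ?_⟩
    apply Complex.ext
    · rw [h2]; simp
    · rw [h3]; simp

section

variable {h : ℝ}

theorem seg0 (x : ℂ) : x ∈ segment ℝ (hourglass h 0) (hourglass h (0 + 1)) ↔
    -1 ≤ x.re ∧ x.re ≤ 0 ∧ x.im = -h + (1 - h) * x.re := by
  change x ∈ segment ℝ (⟨-1, -1⟩ : ℂ) ⟨0, -h⟩ ↔ _
  rw [mem_seg_iff]
  constructor
  · rintro ⟨t, h0, h1, h2, h3⟩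
    simp only at h2 h3
    refine ⟨by linarith, by linarith, ?_⟩
    rw [h3, h2]; ring
  · rintro ⟨h0, h1, h2⟩
    refine ⟨x.re + 1, by linarith, by linarith, ?_, ?_⟩
    · simp only; ring
    · simp only; rw [h2]; ring

theorem seg1 (x : ℂ) : x ∈ segment ℝ (hourglass h 1) (hourglass h (1 + 1)) ↔
    0 ≤ x.re ∧ x.re ≤ 1 ∧ x.im = -h - (1 - h) * x.re := by
  change x ∈ segment ℝ (⟨0, -h⟩ : ℂ) ⟨1, -1⟩ ↔ _
  rw [mem_seg_iff]
  constructor
  · rintro ⟨t, h0, h1, h2, h3⟩
    simp only at h2 h3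
    refine ⟨by linarith, by linarith, ?_⟩
    rw [h3, h2]; ring
  · rintro ⟨h0, h1, h2⟩
    refine ⟨x.re, by linarith, by linarith, ?_, ?_⟩
    · simp only; ring
    · simp only; rw [h2]; ring

theorem seg2 (x : ℂ) : x ∈ segment ℝ (hourglass h 2) (hourglass h (2 + 1)) ↔
    x.re = 1 ∧ -1 ≤ x.im ∧ x.im ≤ 1 := by
  change x ∈ segment ℝ (⟨1, -1⟩ : ℂ) ⟨1, 1⟩ ↔ _
  rw [mem_seg_iff]
  constructor
  · rintro ⟨t, h0, h1, h2, h3⟩
    simp only at h2 h3
    exact ⟨by linarith, by linarith, by linarith⟩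
  · rintro ⟨h0, h1, h2⟩
    refine ⟨(x.im + 1) / 2, by linarith, by linarith, ?_, ?_⟩
    · simp only; rw [h0]; ring
    · simp only; ring

theorem seg3 (x : ℂ) : x ∈ segment ℝ (hourglass h 3) (hourglass h (3 + 1)) ↔
    0 ≤ x.re ∧ x.re ≤ 1 ∧ x.im = h + (1 - h) * x.re := by
  change x ∈ segment ℝ (⟨1, 1⟩ : ℂ) ⟨0, h⟩ ↔ _
  rw [mem_seg_iff]
  constructor
  · rintro ⟨t, h0, h1, h2, h3⟩
    simp only at h2 h3
    refine ⟨by linarith, by linarith, ?_⟩
    rw [h3, h2]; ring
  · rintro ⟨h0, h1, h2⟩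
    refine ⟨1 - x.re, by linarith, by linarith, ?_, ?_⟩
    · simp only; ring
    · simp only; rw [h2]; ring

theorem seg4 (x : ℂ) : x ∈ segment ℝ (hourglass h 4) (hourglass h (4 + 1)) ↔
    -1 ≤ x.re ∧ x.re ≤ 0 ∧ x.im = h - (1 - h) * x.re := by
  change x ∈ segment ℝ (⟨0, h⟩ : ℂ) ⟨-1, 1⟩ ↔ _
  rw [mem_seg_iff]
  constructor
  · rintro ⟨t, h0, h1, h2, h3⟩
    simp only at h2 h3
    refine ⟨by linarith, by linarith, ?_⟩
    rw [h3, h2]; ring
  · rintro ⟨h0, h1, h2⟩
    refine ⟨-x.re, by linarith, by linarith, ?_, ?_⟩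
    · simp only; ring
    · simp only; rw [h2]; ring

theorem seg5 (x : ℂ) : x ∈ segment ℝ (hourglass h 5) (hourglass h (5 + 1)) ↔
    x.re = -1 ∧ -1 ≤ x.im ∧ x.im ≤ 1 := by
  change x ∈ segment ℝ (⟨-1, 1⟩ : ℂ) ⟨-1, -1⟩ ↔ _
  rw [mem_seg_iff]
  constructor
  · rintro ⟨t, h0, h1, h2, h3⟩
    simp only at h2 h3
    exact ⟨by linarith, by linarith, by linarith⟩
  · rintro ⟨h0, h1, h2⟩
    refine ⟨(1 - x.im) / 2, by linarith, by linarith, ?_, ?_⟩
    · simp only; rw [h0]; ring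
    · simp only; ring

/-- The closed hourglass. -/
theorem closure_hourglassIn (h0 : 0 < h) (x : ℂ) :
    x ∈ closure (hourglassIn h) ↔ |x.re| ≤ 1 ∧ |x.im| ≤ h + (1 - h) * |x.re| := by
  constructor
  · intro hx
    have c1 : Continuous fun y : ℂ => |y.re| := by fun_prop
    have c2 : Continuous fun y : ℂ => |y.im| := by fun_prop
    have c3 : Continuous fun y : ℂ => h + (1 - h) * |y.re| := by fun_prop
    have hc : IsClosed ({y : ℂ | |y.re| ≤ 1} ∩ {y : ℂ | |y.im| ≤ h + (1 - h) * |y.re|}) :=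
      (isClosed_le c1 continuous_const).inter (isClosed_le c2 c3)
    have hs : hourglassIn h ⊆ {y : ℂ | |y.re| ≤ 1} ∩ {y : ℂ | |y.im| ≤ h + (1 - h) * |y.re|} :=
      fun y hy => ⟨le_of_lt hy.1, le_of_lt hy.2⟩
    exact closure_minimal hs hc hx
  · rintro ⟨ha, hb⟩
    have hc : Continuous fun t : ℝ => ((1 - t : ℝ) : ℂ) * x := by fun_prop
    have h2 : Tendsto (fun t : ℝ => ((1 - t : ℝ) : ℂ) * x) (𝓝[>] 0) (𝓝 x) := by
      have := hc.tendsto 0
      simp only [sub_zero, ofReal_one, one_mul] at this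
      exact this.mono_left nhdsWithin_le_nhds
    apply mem_closure_of_tendsto h2
    filter_upwards [Ioo_mem_nhdsGT (zero_lt_one' ℝ)] with t ht
    have ht0 : 0 < 1 - t := by linarith [ht.2]
    constructor
    · rw [re_ofReal_mul, abs_mul, abs_of_pos ht0]
      nlinarith [ht.1, abs_nonneg x.re]
    · rw [re_ofReal_mul, im_ofReal_mul, abs_mul, abs_mul, abs_of_pos ht0]
      have h3 := mul_le_mul_of_nonneg_left hb ht0.le
      have h4 := mul_pos h0 ht.1
      nlinarith

/-- Two sides of the hourglass have no common point apart from a common vertex. -/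
def Apart (h : ℝ) (i j : ZMod 6) : Prop :=
  ∀ x ∈ segment ℝ (hourglass h i) (hourglass h (i + 1)),
    x ∈ segment ℝ (hourglass h j) (hourglass h (j + 1)) →
      (j = i + 1 ∧ x = hourglass h j) ∨ (i = j + 1 ∧ x = hourglass h i)

theorem Apart.symm {i j : ZMod 6} (H : Apart h i j) : Apart h j i :=
  fun x hx hy => (H x hy hx).symm

theorem apart02 (h0 : 0 < h) (h1 : h < 1) : Apart h 0 2 := by
  intro x hx hy
  exfalso
  have hk : 0 < 1 - h := by linarith
  have a := (seg0 x).1 hx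
  have b := (seg2 x).1 hy
  have a4 := mul_nonpos_of_nonneg_of_nonpos hk.le a.2.1
  linarith [a.1, a.2.1, a.2.2, b.1, b.2.1, b.2.2]

theorem apart03 (h0 : 0 < h) (h1 : h < 1) : Apart h 0 3 := by
  intro x hx hy
  exfalso
  have hk : 0 < 1 - h := by linarith
  have a := (seg0 x).1 hx
  have b := (seg3 x).1 hy
  have a4 := mul_nonpos_of_nonneg_of_nonpos hk.le a.2.1
  have b4 := mul_nonneg hk.le b.1
  linarith [a.1, a.2.1, a.2.2, b.1, b.2.1, b.2.2]

theorem apart04 (h0 : 0 < h) (h1 : h < 1) : Apart h 0 4 := by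
  intro x hx hy
  exfalso
  have hk : 0 < 1 - h := by linarith
  have a := (seg0 x).1 hx
  have b := (seg4 x).1 hy
  have a4 := mul_nonpos_of_nonneg_of_nonpos hk.le a.2.1
  have b4 := mul_nonpos_of_nonneg_of_nonpos hk.le b.2.1
  linarith [a.1, a.2.1, a.2.2, b.1, b.2.1, b.2.2]

theorem apart13 (h0 : 0 < h) (h1 : h < 1) : Apart h 1 3 := by
  intro x hx hy
  exfalso
  have hk : 0 < 1 - h := by linarith
  have a := (seg1 x).1 hx
  have b := (seg3 x).1 hy
  have a4 := mul_nonneg hk.le a.1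
  have b4 := mul_nonneg hk.le b.1
  linarith [a.1, a.2.1, a.2.2, b.1, b.2.1, b.2.2]

theorem apart14 (h0 : 0 < h) (h1 : h < 1) : Apart h 1 4 := by
  intro x hx hy
  exfalso
  have hk : 0 < 1 - h := by linarith
  have a := (seg1 x).1 hx
  have b := (seg4 x).1 hy
  have a4 := mul_nonneg hk.le a.1
  have b4 := mul_nonpos_of_nonneg_of_nonpos hk.le b.2.1
  linarith [a.1, a.2.1, a.2.2, b.1, b.2.1, b.2.2]

theorem apart15 (h0 : 0 < h) (h1 : h < 1) : Apart h 1 5 := by
  intro x hx hy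
  exfalso
  have hk : 0 < 1 - h := by linarith
  have a := (seg1 x).1 hx
  have b := (seg5 x).1 hy
  have a4 := mul_nonneg hk.le a.1
  linarith [a.1, a.2.1, a.2.2, b.1, b.2.1, b.2.2]

theorem apart24 (h0 : 0 < h) (h1 : h < 1) : Apart h 2 4 := by
  intro x hx hy
  exfalso
  have hk : 0 < 1 - h := by linarith
  have a := (seg2 x).1 hx
  have b := (seg4 x).1 hy
  have b4 := mul_nonpos_of_nonneg_of_nonpos hk.le b.2.1
  linarith [a.1, a.2.1, a.2.2, b.1, b.2.1, b.2.2]

theorem apart25 (h0 : 0 < h) (h1 : h < 1) : Apart h 2 5 := by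
  intro x hx hy
  exfalso
  have hk : 0 < 1 - h := by linarith
  have a := (seg2 x).1 hx
  have b := (seg5 x).1 hy
  linarith [a.1, a.2.1, a.2.2, b.1, b.2.1, b.2.2]

theorem apart35 (h0 : 0 < h) (h1 : h < 1) : Apart h 3 5 := by
  intro x hx hy
  exfalso
  have hk : 0 < 1 - h := by linarith
  have a := (seg3 x).1 hx
  have b := (seg5 x).1 hy
  have a4 := mul_nonneg hk.le a.1
  linarith [a.1, a.2.1, a.2.2, b.1, b.2.1, b.2.2]

theorem apart01 : Apart h 0 1 := by
  intro x hx hy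
  have a := (seg0 x).1 hx
  have b := (seg1 x).1 hy
  have hr : x.re = 0 := by linarith [a.1, a.2.1, b.1, b.2.1]
  have hi : x.im = -h := by
    rw [a.2.2, hr]; ring
  left
  exact ⟨rfl, Complex.ext hr hi⟩

theorem apart12 : Apart h 1 2 := by
  intro x hx hy
  have a := (seg1 x).1 hx
  have b := (seg2 x).1 hy
  have hr : x.re = 1 := by linarith [a.1, a.2.1, b.1, b.2.1]
  have hi : x.im = -1 := by
    rw [a.2.2, hr]; ring
  left
  exact ⟨rfl, Complex.ext hr hi⟩

theorem apart23 : Apart h 2 3 := by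
  intro x hx hy
  have a := (seg2 x).1 hx
  have b := (seg3 x).1 hy
  have hr : x.re = 1 := by linarith [a.1, a.2.1, b.1, b.2.1]
  have hi : x.im = 1 := by
    rw [b.2.2, hr]; ring
  left
  exact ⟨rfl, Complex.ext hr hi⟩

theorem apart34 : Apart h 3 4 := by
  intro x hx hy
  have a := (seg3 x).1 hx
  have b := (seg4 x).1 hy
  have hr : x.re = 0 := by linarith [a.1, a.2.1, b.1, b.2.1]
  have hi : x.im = h := by
    rw [a.2.2, hr]; ring
  left
  exact ⟨rfl, Complex.ext hr hi⟩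

theorem apart45 : Apart h 4 5 := by
  intro x hx hy
  have a := (seg4 x).1 hx
  have b := (seg5 x).1 hy
  have hr : x.re = -1 := by linarith [a.1, a.2.1, b.1, b.2.1]
  have hi : x.im = 1 := by
    rw [a.2.2, hr]; ring
  left
  exact ⟨rfl, Complex.ext hr hi⟩

theorem apart05 : Apart h 0 5 := by
  intro x hx hy
  have a := (seg0 x).1 hx
  have b := (seg5 x).1 hy
  have hr : x.re = -1 := by linarith [a.1, a.2.1, b.1, b.2.1]
  have hi : x.im = -1 := by
    rw [a.2.2, hr]; ring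
  right
  exact ⟨rfl, Complex.ext hr hi⟩

/-- The hourglass hexagon is a simple polygon. -/
theorem polyDom_hourglass (h0 : 0 < h) (h1 : h < 1) :
    PolyDom (hourglass h) (hourglassIn h) := by
  have c0 : Continuous fun y : ℂ => y.re := by fun_prop
  have c0' : Continuous fun y : ℂ => y.im := by fun_prop
  have c1 : Continuous fun y : ℂ => |y.re| := by fun_prop
  have c2 : Continuous fun y : ℂ => |y.im| := by fun_prop
  have c3 : Continuous fun y : ℂ => h + (1 - h) * |y.re| := by fun_prop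
  have ho : IsOpen (hourglassIn h) := by
    have : hourglassIn h = {y : ℂ | |y.re| < 1} ∩ {y : ℂ | |y.im| < h + (1 - h) * |y.re|} := rfl
    rw [this]
    exact (isOpen_lt c1 continuous_const).inter (isOpen_lt c2 c3)
  have hk : 0 < 1 - h := by linarith
  refine ⟨ho, ?_, ?_, ?_, ?_, ?_⟩
  · -- bounded
    refine (Metric.isBounded_ball (x := (0 : ℂ)) (r := 3)).subset fun x hx => ?_
    rw [mem_ball_zero_iff]
    have h2 := Complex.norm_le_abs_re_add_abs_im x
    have h3 := hx.1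
    have h4 := hx.2
    nlinarith [abs_nonneg x.re]
  · -- frontier
    ext x
    rw [ho.frontier_eq, Set.mem_sdiff, closure_hourglassIn h0, mem_iUnion]
    constructor
    · rintro ⟨⟨ha, hb⟩, hc⟩
      have hc' : ¬ (|x.re| < 1 ∧ |x.im| < h + (1 - h) * |x.re|) := hc
      rw [abs_le] at ha
      by_cases hr : |x.re| < 1
      · have he : |x.im| = h + (1 - h) * |x.re| := by
          apply le_antisymm hb
          by_contra hne
          exact hc' ⟨hr, not_le.1 hne⟩
        rcases le_total 0 x.re with hs | hs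
        · rw [abs_of_nonneg hs] at he
          rcases le_total 0 x.im with hi | hi
          · rw [abs_of_nonneg hi] at he
            exact ⟨3, (seg3 x).2 ⟨hs, ha.2, he⟩⟩
          · rw [abs_of_nonpos hi] at he
            exact ⟨1, (seg1 x).2 ⟨hs, ha.2, by linarith⟩⟩
        · rw [abs_of_nonpos hs] at he
          rcases le_total 0 x.im with hi | hi
          · rw [abs_of_nonneg hi] at he
            exact ⟨4, (seg4 x).2 ⟨ha.1, hs, by rw [he]; ring⟩⟩
          · rw [abs_of_nonpos hi] at he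
            exact ⟨0, (seg0 x).2 ⟨ha.1, hs, by linarith⟩⟩
      · have he : |x.re| = 1 := le_antisymm (abs_le.2 ha) (not_lt.1 hr)
        rw [he] at hb
        rw [abs_le] at hb
        rcases le_total 0 x.re with hs | hs
        · rw [abs_of_nonneg hs] at he
          exact ⟨2, (seg2 x).2 ⟨he, by linarith [hb.1], by linarith [hb.2]⟩⟩
        · rw [abs_of_nonpos hs] at he
          exact ⟨5, (seg5 x).2 ⟨by linarith, by linarith [hb.1], by linarith [hb.2]⟩⟩
    · rintro ⟨i, hi⟩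
      have hn : x ∉ hourglassIn h ↔ ¬ (|x.re| < 1 ∧ |x.im| < h + (1 - h) * |x.re|) := Iff.rfl
      rw [hn]
      fin_cases i
      · obtain ⟨e1, e2, e3⟩ := (seg0 x).1 hi
        have e4 : (1 - h) * x.re ≤ 0 := mul_nonpos_of_nonneg_of_nonpos hk.le e2
        have e5 : x.im ≤ 0 := by linarith
        rw [abs_of_nonpos e2, abs_of_nonpos e5]
        exact ⟨⟨by linarith, by linarith⟩, fun hh => by linarith [hh.2]⟩
      · obtain ⟨e1, e2, e3⟩ := (seg1 x).1 hi
        have e4 : 0 ≤ (1 - h) * x.re := mul_nonneg hk.le e1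
        have e5 : x.im ≤ 0 := by linarith
        rw [abs_of_nonneg e1, abs_of_nonpos e5]
        exact ⟨⟨by linarith, by linarith⟩, fun hh => by linarith [hh.2]⟩
      · obtain ⟨e1, e2, e3⟩ := (seg2 x).1 hi
        rw [e1, abs_one]
        exact ⟨⟨le_rfl, by rw [abs_le]; constructor <;> linarith⟩, fun hh => by linarith [hh.1]⟩
      · obtain ⟨e1, e2, e3⟩ := (seg3 x).1 hi
        have e4 : 0 ≤ (1 - h) * x.re := mul_nonneg hk.le e1
        have e5 : 0 ≤ x.im := by linarith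
        rw [abs_of_nonneg e1, abs_of_nonneg e5]
        exact ⟨⟨by linarith, by linarith⟩, fun hh => by linarith [hh.2]⟩
      · obtain ⟨e1, e2, e3⟩ := (seg4 x).1 hi
        have e4 : (1 - h) * x.re ≤ 0 := mul_nonpos_of_nonneg_of_nonpos hk.le e2
        have e5 : 0 ≤ x.im := by linarith
        rw [abs_of_nonpos e2, abs_of_nonneg e5]
        exact ⟨⟨by linarith, by linarith⟩, fun hh => by linarith [hh.2]⟩
      · obtain ⟨e1, e2, e3⟩ := (seg5 x).1 hi
        rw [e1, abs_neg, abs_one]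
        exact ⟨⟨le_rfl, by rw [abs_le]; constructor <;> linarith⟩, fun hh => by linarith [hh.1]⟩
  · -- locally on the left
    intro i
    fin_cases i
    · intro x hx
      obtain ⟨t, t0, t1, e1, e2⟩ := (mem_oseg_iff (⟨-1, -1⟩ : ℂ) ⟨0, -h⟩ x).1 hx
      simp only at e1 e2
      have a1 : ∀ᶠ y in 𝓝 x, -1 < y.re :=
        (isOpen_lt continuous_const c0).mem_nhds (show -1 < x.re by linarith)
      have a2 : ∀ᶠ y in 𝓝 x, y.re < 0 :=
        (isOpen_lt c0 continuous_const).mem_nhds (show x.re < 0 by linarith)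
      have a3 : ∀ᶠ y in 𝓝 x, y.im < 0 :=
        (isOpen_lt c0' continuous_const).mem_nhds (show x.im < 0 by nlinarith)
      filter_upwards [a1, a2, a3] with y b1 b2 b3
      have hcr : cr (hourglass h (0 + 1) - hourglass h 0) (y - hourglass h 0) =
          y.im + h - (1 - h) * y.re := by
        change cr ((⟨0, -h⟩ : ℂ) - ⟨-1, -1⟩) (y - ⟨-1, -1⟩) = _
        simp only [cr, sub_re, sub_im]
        ring
      change (|y.re| < 1 ∧ |y.im| < h + (1 - h) * |y.re|) ↔
        0 < cr (hourglass h (0 + 1) - hourglass h 0) (y - hourglass h 0)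
      rw [hcr, abs_of_neg b2, abs_of_neg b3]
      exact ⟨fun hh => by linarith [hh.2], fun hh => ⟨by linarith, by linarith⟩⟩
    · intro x hx
      obtain ⟨t, t0, t1, e1, e2⟩ := (mem_oseg_iff (⟨0, -h⟩ : ℂ) ⟨1, -1⟩ x).1 hx
      simp only at e1 e2
      have a1 : ∀ᶠ y in 𝓝 x, 0 < y.re :=
        (isOpen_lt continuous_const c0).mem_nhds (show 0 < x.re by linarith)
      have a2 : ∀ᶠ y in 𝓝 x, y.re < 1 :=
        (isOpen_lt c0 continuous_const).mem_nhds (show x.re < 1 by linarith)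
      have a3 : ∀ᶠ y in 𝓝 x, y.im < 0 :=
        (isOpen_lt c0' continuous_const).mem_nhds (show x.im < 0 by nlinarith)
      filter_upwards [a1, a2, a3] with y b1 b2 b3
      have hcr : cr (hourglass h (1 + 1) - hourglass h 1) (y - hourglass h 1) =
          y.im + h + (1 - h) * y.re := by
        change cr ((⟨1, -1⟩ : ℂ) - ⟨0, -h⟩) (y - ⟨0, -h⟩) = _
        simp only [cr, sub_re, sub_im]
        ring
      change (|y.re| < 1 ∧ |y.im| < h + (1 - h) * |y.re|) ↔
        0 < cr (hourglass h (1 + 1) - hourglass h 1) (y - hourglass h 1)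
      rw [hcr, abs_of_pos b1, abs_of_neg b3]
      exact ⟨fun hh => by linarith [hh.2], fun hh => ⟨by linarith, by linarith⟩⟩
    · intro x hx
      obtain ⟨t, t0, t1, e1, e2⟩ := (mem_oseg_iff (⟨1, -1⟩ : ℂ) ⟨1, 1⟩ x).1 hx
      simp only at e1 e2
      have a1 : ∀ᶠ y in 𝓝 x, 0 < y.re :=
        (isOpen_lt continuous_const c0).mem_nhds (show 0 < x.re by linarith)
      have a2 : ∀ᶠ y in 𝓝 x, |y.im| < h + (1 - h) * |y.re| := by
        refine (isOpen_lt c2 c3).mem_nhds ?_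
        change |x.im| < h + (1 - h) * |x.re|
        have : x.re = 1 := by linarith
        rw [this, abs_one, abs_lt]
        constructor <;> linarith
      filter_upwards [a1, a2] with y b1 b2
      have hcr : cr (hourglass h (2 + 1) - hourglass h 2) (y - hourglass h 2) =
          2 * (1 - y.re) := by
        change cr ((⟨1, 1⟩ : ℂ) - ⟨1, -1⟩) (y - ⟨1, -1⟩) = _
        simp only [cr, sub_re, sub_im]
        ring
      change (|y.re| < 1 ∧ |y.im| < h + (1 - h) * |y.re|) ↔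
        0 < cr (hourglass h (2 + 1) - hourglass h 2) (y - hourglass h 2)
      rw [hcr]
      refine ⟨fun hh => ?_, fun hh => ⟨?_, b2⟩⟩
      · have := hh.1
        rw [abs_of_pos b1] at this
        linarith
      · rw [abs_of_pos b1]
        linarith
    · intro x hx
      obtain ⟨t, t0, t1, e1, e2⟩ := (mem_oseg_iff (⟨1, 1⟩ : ℂ) ⟨0, h⟩ x).1 hx
      simp only at e1 e2
      have a1 : ∀ᶠ y in 𝓝 x, 0 < y.re :=
        (isOpen_lt continuous_const c0).mem_nhds (show 0 < x.re by linarith)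
      have a2 : ∀ᶠ y in 𝓝 x, y.re < 1 :=
        (isOpen_lt c0 continuous_const).mem_nhds (show x.re < 1 by linarith)
      have a3 : ∀ᶠ y in 𝓝 x, 0 < y.im :=
        (isOpen_lt continuous_const c0').mem_nhds (show 0 < x.im by nlinarith)
      filter_upwards [a1, a2, a3] with y b1 b2 b3
      have hcr : cr (hourglass h (3 + 1) - hourglass h 3) (y - hourglass h 3) =
          h + (1 - h) * y.re - y.im := by
        change cr ((⟨0, h⟩ : ℂ) - ⟨1, 1⟩) (y - ⟨1, 1⟩) = _
        simp only [cr, sub_re, sub_im]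
        ring
      change (|y.re| < 1 ∧ |y.im| < h + (1 - h) * |y.re|) ↔
        0 < cr (hourglass h (3 + 1) - hourglass h 3) (y - hourglass h 3)
      rw [hcr, abs_of_pos b1, abs_of_pos b3]
      exact ⟨fun hh => by linarith [hh.2], fun hh => ⟨by linarith, by linarith⟩⟩
    · intro x hx
      obtain ⟨t, t0, t1, e1, e2⟩ := (mem_oseg_iff (⟨0, h⟩ : ℂ) ⟨-1, 1⟩ x).1 hx
      simp only at e1 e2
      have a1 : ∀ᶠ y in 𝓝 x, -1 < y.re :=
        (isOpen_lt continuous_const c0).mem_nhds (show -1 < x.re by linarith)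
      have a2 : ∀ᶠ y in 𝓝 x, y.re < 0 :=
        (isOpen_lt c0 continuous_const).mem_nhds (show x.re < 0 by linarith)
      have a3 : ∀ᶠ y in 𝓝 x, 0 < y.im :=
        (isOpen_lt continuous_const c0').mem_nhds (show 0 < x.im by nlinarith)
      filter_upwards [a1, a2, a3] with y b1 b2 b3
      have hcr : cr (hourglass h (4 + 1) - hourglass h 4) (y - hourglass h 4) =
          h - (1 - h) * y.re - y.im := by
        change cr ((⟨-1, 1⟩ : ℂ) - ⟨0, h⟩) (y - ⟨0, h⟩) = _
        simp only [cr, sub_re, sub_im]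
        ring
      change (|y.re| < 1 ∧ |y.im| < h + (1 - h) * |y.re|) ↔
        0 < cr (hourglass h (4 + 1) - hourglass h 4) (y - hourglass h 4)
      rw [hcr, abs_of_neg b2, abs_of_pos b3]
      exact ⟨fun hh => by linarith [hh.2], fun hh => ⟨by linarith, by linarith⟩⟩
    · intro x hx
      obtain ⟨t, t0, t1, e1, e2⟩ := (mem_oseg_iff (⟨-1, 1⟩ : ℂ) ⟨-1, -1⟩ x).1 hx
      simp only at e1 e2
      have a1 : ∀ᶠ y in 𝓝 x, y.re < 0 :=
        (isOpen_lt c0 continuous_const).mem_nhds (show x.re < 0 by linarith)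
      have a2 : ∀ᶠ y in 𝓝 x, |y.im| < h + (1 - h) * |y.re| := by
        refine (isOpen_lt c2 c3).mem_nhds ?_
        change |x.im| < h + (1 - h) * |x.re|
        have : x.re = -1 := by linarith
        rw [this, abs_neg, abs_one, abs_lt]
        constructor <;> linarith
      filter_upwards [a1, a2] with y b1 b2
      have hcr : cr (hourglass h (5 + 1) - hourglass h 5) (y - hourglass h 5) =
          2 * (y.re + 1) := by
        change cr ((⟨-1, -1⟩ : ℂ) - ⟨-1, 1⟩) (y - ⟨-1, 1⟩) = _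
        simp only [cr, sub_re, sub_im]
        ring
      change (|y.re| < 1 ∧ |y.im| < h + (1 - h) * |y.re|) ↔
        0 < cr (hourglass h (5 + 1) - hourglass h 5) (y - hourglass h 5)
      rw [hcr]
      refine ⟨fun hh => ?_, fun hh => ⟨?_, b2⟩⟩
      · have := hh.1
        rw [abs_of_neg b1] at this
        linarith
      · rw [abs_of_neg b1]
        linarith
  · -- different vertices
    intro i
    fin_cases i
    · intro hh
      have := congrArg Complex.re (show (⟨-1, -1⟩ : ℂ) = ⟨0, -h⟩ from hh)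
      simp only at this
      linarith
    · intro hh
      have := congrArg Complex.re (show (⟨0, -h⟩ : ℂ) = ⟨1, -1⟩ from hh)
      simp only at this
      linarith
    · intro hh
      have := congrArg Complex.im (show (⟨1, -1⟩ : ℂ) = ⟨1, 1⟩ from hh)
      simp only at this
      linarith
    · intro hh
      have := congrArg Complex.re (show (⟨1, 1⟩ : ℂ) = ⟨0, h⟩ from hh)
      simp only at this
      linarith
    · intro hh
      have := congrArg Complex.re (show (⟨0, h⟩ : ℂ) = ⟨-1, 1⟩ from hh)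
      simp only at this
      linarith
    · intro hh
      have := congrArg Complex.im (show (⟨-1, 1⟩ : ℂ) = ⟨-1, -1⟩ from hh)
      simp only at this
      linarith
  · -- simple
    intro i j hij
    change Apart h i j
    fin_cases i <;> fin_cases j
    · exact absurd rfl hij
    · exact apart01
    · exact apart02 h0 h1
    · exact apart03 h0 h1
    · exact apart04 h0 h1
    · exact apart05
    · exact apart01.symm
    · exact absurd rfl hij
    · exact apart12
    · exact apart13 h0 h1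
    · exact apart14 h0 h1
    · exact apart15 h0 h1
    · exact (apart02 h0 h1).symm
    · exact apart12.symm
    · exact absurd rfl hij
    · exact apart23
    · exact apart24 h0 h1
    · exact apart25 h0 h1
    · exact (apart03 h0 h1).symm
    · exact (apart13 h0 h1).symm
    · exact apart23.symm
    · exact absurd rfl hij
    · exact apart34
    · exact apart35 h0 h1
    · exact (apart04 h0 h1).symm
    · exact (apart14 h0 h1).symm
    · exact (apart24 h0 h1).symm
    · exact apart34.symm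
    · exact absurd rfl hij
    · exact apart45
    · exact apart05.symm
    · exact (apart15 h0 h1).symm
    · exact (apart25 h0 h1).symm
    · exact (apart35 h0 h1).symm
    · exact apart45.symm
    · exact absurd rfl hij

/-- The hourglass hexagon with the two vertical sides dispersive is hyperbolic for large radii. -/
theorem hyperbolic_hourglass (h0 : 0 < h) (h1 : h < 1) :
    ∃ R : ℝ, ∀ ρ : ZMod 6 → ℝ, (∀ k ∈ ({2, 5} : Set (ZMod 6)), R ≤ ρ k) →
      (Dom.mk (Table.mk (hourglass h) {2, 5} ρ) (hourglassIn h)).Hyperbolic := by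
  refine hyperbolic_of_waist 6 (by norm_num) (hourglass h) (hourglassIn h)
    (polyDom_hourglass h0 h1) {2, 5} 1 one_ne_zero 0 ?_
  intro j hj
  fin_cases j
  · right
    change dt 1 (⟨-1, -1⟩ : ℂ) ≤ 0 ∧ dt 1 (⟨0, -h⟩ : ℂ) ≤ 0 ∧
      cr ((⟨0, -h⟩ : ℂ) - ⟨-1, -1⟩) 1 ≤ 0
    simp only [dt, cr, sub_re, sub_im, one_re, one_im]
    refine ⟨?_, ?_, ?_⟩ <;> linarith
  · left
    change 0 ≤ dt 1 (⟨0, -h⟩ : ℂ) ∧ 0 ≤ dt 1 (⟨1, -1⟩ : ℂ) ∧
      0 ≤ cr ((⟨1, -1⟩ : ℂ) - ⟨0, -h⟩) 1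
    simp only [dt, cr, sub_re, sub_im, one_re, one_im]
    refine ⟨?_, ?_, ?_⟩ <;> linarith
  · exact absurd (Or.inl rfl) hj
  · left
    change 0 ≤ dt 1 (⟨1, 1⟩ : ℂ) ∧ 0 ≤ dt 1 (⟨0, h⟩ : ℂ) ∧
      0 ≤ cr ((⟨0, h⟩ : ℂ) - ⟨1, 1⟩) 1
    simp only [dt, cr, sub_re, sub_im, one_re, one_im]
    refine ⟨?_, ?_, ?_⟩ <;> linarith
  · right
    change dt 1 (⟨0, h⟩ : ℂ) ≤ 0 ∧ dt 1 (⟨-1, 1⟩ : ℂ) ≤ 0 ∧
      cr ((⟨-1, 1⟩ : ℂ) - ⟨0, h⟩) 1 ≤ 0
    simp only [dt, cr, sub_re, sub_im, one_re, one_im]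
    refine ⟨?_, ?_, ?_⟩ <;> linarith
  · exact absurd (Or.inr rfl) hj

/-- No affine field with `0 ≤ b.re`, apart from zero, has nonnegative inner normal components on
the neutral sides of the hourglass. -/
theorem no_field_hourglass (h0 : 0 < h) (h1 : h < 1) (a b : ℂ) (hb : 0 ≤ b.re)
    (H : ∀ j, j ∉ ({2, 5} : Set (ZMod 6)) →
      0 ≤ cr (hourglass h (j + 1) - hourglass h j) (a + b * hourglass h j) ∧
      0 ≤ cr (hourglass h (j + 1) - hourglass h j) (a + b * hourglass h (j + 1))) :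
    a = 0 ∧ b = 0 := by
  have hk : 0 < 1 - h := by linarith
  have n0 : (0 : ZMod 6) ∉ ({2, 5} : Set (ZMod 6)) := by
    rintro (hh | hh) <;> exact absurd hh (by decide)
  have n1 : (1 : ZMod 6) ∉ ({2, 5} : Set (ZMod 6)) := by
    rintro (hh | hh) <;> exact absurd hh (by decide)
  have n3 : (3 : ZMod 6) ∉ ({2, 5} : Set (ZMod 6)) := by
    rintro (hh | hh) <;> exact absurd hh (by decide)
  have n4 : (4 : ZMod 6) ∉ ({2, 5} : Set (ZMod 6)) := by
    rintro (hh | hh) <;> exact absurd hh (by decide)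
  have q0 : 0 ≤ cr ((⟨0, -h⟩ : ℂ) - ⟨-1, -1⟩) (a + b * ⟨0, -h⟩) := (H 0 n0).2
  have q1 : 0 ≤ cr ((⟨1, -1⟩ : ℂ) - ⟨0, -h⟩) (a + b * ⟨0, -h⟩) := (H 1 n1).1
  have q3 : 0 ≤ cr ((⟨0, h⟩ : ℂ) - ⟨1, 1⟩) (a + b * ⟨0, h⟩) := (H 3 n3).2
  have q4 : 0 ≤ cr ((⟨-1, 1⟩ : ℂ) - ⟨0, h⟩) (a + b * ⟨0, h⟩) := (H 4 n4).1
  simp only [cr, sub_re, sub_im, add_re, add_im, mul_re, mul_im] at q0 q1 q3 q4
  have r0 : 0 ≤ (a.im - b.re * h) - (1 - h) * (a.re + b.im * h) := by linarith
  have r1 : 0 ≤ (a.im - b.re * h) + (1 - h) * (a.re + b.im * h) := by linarith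
  have r3 : 0 ≤ -(a.im + b.re * h) + (1 - h) * (a.re - b.im * h) := by linarith
  have r4 : 0 ≤ -(a.im + b.re * h) - (1 - h) * (a.re - b.im * h) := by linarith
  have s1 : b.re * h ≤ 0 := by linarith
  have s2 : b.re = 0 := by
    have := mul_nonneg hb h0.le
    have h3 : b.re * h = 0 := le_antisymm s1 this
    exact (mul_eq_zero.1 h3).resolve_right h0.ne'
  rw [s2, zero_mul] at r0 r1 r3 r4
  have s3 : a.im = 0 := by linarith
  rw [s3] at r0 r1 r3 r4
  have s4 : (1 - h) * (a.re + b.im * h) = 0 := by linarith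
  have s5 : (1 - h) * (a.re - b.im * h) = 0 := by linarith
  have s6 := (mul_eq_zero.1 s4).resolve_left hk.ne'
  have s7 := (mul_eq_zero.1 s5).resolve_left hk.ne'
  have s8 : a.re = 0 := by linarith
  have s9 : b.im * h = 0 := by linarith
  have s10 : b.im = 0 := (mul_eq_zero.1 s9).resolve_right h0.ne'
  exact ⟨Complex.ext s8 s3, Complex.ext s2 s10⟩

end

end Pool.Agent.Lib.MP_19d7db_an
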