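import Pool.Agent.Lib.MP_19d7db_an_S.Force
import Pool.Agent.Lib.MP_19d7db_an_P.Defs

/-!
# Semi-dispersive simple polygons: successive confinement
-/

open Complex Set Filter Topology MeasureTheory

namespace Pool.Agent.Lib.MP_19d7db_an

variable {n : ℕ}

namespace SG

variable {Y : Dom n} {C η : ℝ} (hg : SG Y C η)

include hg

/-- A property of almost all points with infinite neutral orbit holds at almost all images. -/
lemma ae_image [NeZero n] {Q : ZMod n → ℝ × ℝ → Prop}
    (hQ : ∀ j, ∀ᵐ w : ℝ × ℝ, w ∈ Y.S j → Q j w) (i j : ZMod n) :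
    ∀ᵐ w : ℝ × ℝ, w ∈ Y.S i → w ∈ Y.U i j → Q j (Y.Ψ i j w) := by
  have h1 := hQ j
  rw [ae_iff] at h1
  have h2 := hg.null_preimage i j h1
  have h3 : ∀ᵐ w : ℝ × ℝ, ¬ ∃ w' ∈ {w : ℝ × ℝ | ¬ (w ∈ Y.S j → Q j w)},
      Y.Hit (i, w) (j, w') := by
    rw [ae_iff]
    simpa only [not_not] using h2
  filter_upwards [h3] with w h4 h5 h6
  by_contra h7
  exact h4 ⟨Y.Ψ i j w, fun h => h7 (h (hg.Ψ_mem h5 h6)), Ψ_spec h6⟩

/-- It is enough to consider the points with an image on a given component. -/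
lemma ae_of_image [NeZero n] {Q : ZMod n → ℝ × ℝ → Prop}
    (hQ : ∀ i j, ∀ᵐ w : ℝ × ℝ, w ∈ Y.S i → w ∈ Y.U i j → Q i w) (i : ZMod n) :
    ∀ᵐ w : ℝ × ℝ, w ∈ Y.S i → Q i w := by
  have h1 : ∀ᵐ w : ℝ × ℝ, ∀ j, w ∈ Y.S i → w ∈ Y.U i j → Q i w := ae_all_iff.2 (hQ i)
  filter_upwards [h1] with w h2 h3
  obtain ⟨j, hj⟩ := Set.mem_iUnion.1 (S_sub i h3)
  exact h2 j hj.1 hj.2

omit hg in
lemma step_le {x x' v v' t : ℝ} (ht : 0 < t) (hx : x' = x + t * v) (hv : 0 < x' → v ≤ v') :
    (if 0 < x then v else if x = 0 then max 0 v else 0) ≤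
      (if 0 < x' then v' else if x' = 0 then max 0 v' else 0) := by
  split_ifs with h1 h2 h3 h4 h5 h6 h7 h8
  · exact hv h2
  · have : t * v < 0 := by linarith
    have h9 : v < 0 := by
      by_contra h
      have := mul_nonneg ht.le (not_lt.1 h)
      linarith
    exact h9.le.trans (le_max_left _ _)
  · have : t * v < 0 := by linarith
    by_contra h
    have := mul_nonneg ht.le (not_le.1 h).le
    linarith
  · have h9 := hv h5
    have h10 : 0 < v := by
      by_contra h
      have := mul_nonpos_of_nonneg_of_nonpos ht.le (not_lt.1 h)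
      linarith
    exact max_le (h10.le.trans h9) h9
  · refine max_le (le_max_left _ _) ?_
    have : t * v = 0 := by linarith
    rw [(mul_eq_zero.1 this).resolve_left ht.ne']
    exact le_max_left _ _
  · refine max_le le_rfl ?_
    by_contra h
    have := mul_pos ht (not_le.1 h)
    have h11 : 0 < x' := by linarith
    exact h5 h11
  · have h10 : 0 < v := by
      by_contra h
      have := mul_nonpos_of_nonneg_of_nonpos ht.le (not_lt.1 h)
      have h11 : x < 0 := lt_of_le_of_ne (not_lt.1 h1) h4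
      linarith
    exact h10.le.trans (hv h7)
  · exact le_max_left _ _
  · exact le_rfl

omit hg in
lemma step_eq {x x' v v' t g : ℝ} (ht : 0 < t) (hx : x' = x + t * v) (hv : 0 < x' → v ≤ v')
    (hg1 : g = (if 0 < x then v else if x = 0 then max 0 v else 0))
    (hg2 : g = (if 0 < x' then v' else if x' = 0 then max 0 v' else 0)) :
    max 0 x' = max 0 x + t * g := by
  rcases lt_trichotomy x 0 with h | h | h
  · rw [if_neg (by linarith), if_neg h.ne] at hg1
    rw [hg1, mul_zero, add_zero, max_eq_left h.le]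
    rcases lt_or_ge 0 x' with h' | h'
    · rw [if_pos h', hg1] at hg2
      have h10 : 0 < v := by
        by_contra h3
        have := mul_nonpos_of_nonneg_of_nonpos ht.le (not_lt.1 h3)
        linarith
      have := hv h'
      linarith
    · exact max_eq_left h'
  · rw [if_neg (by linarith), if_pos h] at hg1
    rw [h, zero_add] at hx
    rw [h, max_self, zero_add]
    rcases le_or_gt v 0 with h3 | h3
    · rw [max_eq_left h3] at hg1
      rw [hg1, mul_zero, hx]
      exact max_eq_left (mul_nonpos_of_nonneg_of_nonpos ht.le h3)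
    · rw [max_eq_right h3.le] at hg1
      rw [hg1, hx]
      exact max_eq_right (mul_nonneg ht.le h3.le)
  · rw [if_pos h] at hg1
    rcases lt_or_ge 0 x' with h' | h'
    · rw [max_eq_right h'.le, max_eq_right h.le, hx, hg1]
    · have h10 : v < 0 := by
        by_contra h3
        have := mul_nonneg ht.le (not_lt.1 h3)
        linarith
      rw [if_neg (not_lt.2 h')] at hg2
      exfalso
      split_ifs at hg2 with h5
      · have := le_max_left (0 : ℝ) v'
        linarith
      · linarith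

/-- Confinement: if the neutral sides push outwards at all points outside of a half plane, then
almost all infinite neutral orbits stay in the half plane. -/
theorem confine [NeZero n] {u : ℂ} (hu : u ≠ 0) (c : ℝ) {R : Set ℂ}
    (hR : ∀ i, ∀ᵐ w : ℝ × ℝ, w ∈ Y.S i → Y.pos i w.1 ∈ R)
    (hF : ∀ j, j ∉ Y.D → ∀ s ∈ Ioo 0 (Y.len j), Y.pos j s ∈ R → c < dt u (Y.pos j s) →
      0 ≤ cr (Y.e j) u) :
    ∀ i, ∀ᵐ w : ℝ × ℝ, w ∈ Y.S i → dt u (Y.pos i w.1) ≤ c := by
  obtain ⟨M, hM0, hM⟩ := hg.exists_bound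
  have hcdt : ∀ {g h : ℝ × ℝ → ℂ}, Continuous g → Continuous h →
      Continuous fun w => dt (g w) (h w) := by
    intro g h hg hh
    unfold dt
    exact ((Complex.continuous_re.comp hg).mul (Complex.continuous_re.comp hh)).add
      ((Complex.continuous_im.comp hg).mul (Complex.continuous_im.comp hh))
  set X : ZMod n → ℝ × ℝ → ℝ := fun i w => dt u (Y.pos i w.1) - c with hX
  set V : ZMod n → ℝ × ℝ → ℝ := fun i w => dt (Y.dir (i, w)) u with hV
  have hXm : ∀ i, Measurable (X i) := by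
    intro i
    have h2 : Continuous fun w : ℝ × ℝ => Y.pos i w.1 := (hg.continuous_pos i).comp continuous_fst
    exact ((hcdt continuous_const h2).sub continuous_const).measurable
  have hVm : ∀ i, Measurable (V i) := by
    intro i
    have h1 : Continuous fun w : ℝ × ℝ => Y.dir (i, w) := continuous_dir i
    exact (hcdt h1 continuous_const).measurable
  set G : ZMod n → ℝ × ℝ → ℝ := fun i w =>
    if 0 < X i w then V i w else if X i w = 0 then max 0 (V i w) else 0 with hG
  have hGm : ∀ i, Measurable (G i) := by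
    intro i
    exact Measurable.ite (measurableSet_lt measurable_const (hXm i)) (hVm i)
      (Measurable.ite (measurableSet_eq_fun (hXm i) measurable_const)
        (measurable_const.max (hVm i)) measurable_const)
  have hVK : ∀ i w, |V i w| ≤ ‖u‖ := by
    intro i w
    have h1 := abs_dt_le (Y.dir (i, w)) u
    rwa [hg.norm_dir, one_mul] at h1
  have hGK : ∀ i w, |G i w| ≤ ‖u‖ := by
    intro i w
    have h1 := hVK i w
    have h2 := norm_nonneg u
    rw [hG]
    simp only
    split_ifs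
    · exact h1
    · rw [abs_of_nonneg (le_max_left _ _)]
      exact max_le h2 ((le_abs_self _).trans h1)
    · rw [abs_zero]; exact h2
  have hterm : ∀ i j, ∀ᵐ w : ℝ × ℝ, w ∈ Y.S i → w ∈ Y.U i j → ∃ t : ℝ, 0 < t ∧
      X j (Y.Ψ i j w) = X i w + t * V i w ∧
      (0 < X j (Y.Ψ i j w) → V i w ≤ V j (Y.Ψ i j w)) := by
    intro i j
    filter_upwards [hg.ae_image hR i j] with w h0 h1 h2
    have h3 := hg.Ψ_mem h1 h2
    have hj := S_neutral h3
    have hh := Ψ_spec h2
    have hm := hg.momentum hj hh u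
    obtain ⟨-, hw', t, ht, hpos, -, -⟩ := hh
    refine ⟨t, ht, ?_, ?_⟩
    · rw [hX, hV]
      simp only at hpos ⊢
      rw [hpos, dt_add_right, dt_smul_right, dt_comm u (Y.dir (i, w))]
      ring
    · intro hx
      have hx' : c < dt u (Y.pos j (Y.Ψ i j w).1) := by
        rw [hX] at hx
        simp only at hx
        linarith
      have h5 := hF j hj _ h3.1.1 (h0 h1 h2) hx'
      have h6 : 0 ≤ 2 * Real.sin (Y.Ψ i j w).2 * (cr (Y.e j) u / Y.ℓ j) := by
        have := hg.sin_pos_of_phase h3.1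
        exact mul_nonneg (by linarith) (div_nonneg h5 (hg.ell_pos j).le)
      rw [hV]
      simp only
      rw [hm]
      linarith
  have heq := hg.recur hGm (K := ‖u‖) (fun i _ w _ => hGK i w) (fun i j => by
    filter_upwards [hterm i j] with w h0 h1 h2
    obtain ⟨t, ht, hx, hv⟩ := h0 h1 h2
    exact step_le ht hx hv)
  set G₂ : ZMod n → ℝ × ℝ → ℝ := fun i w => G i w * max 0 (X i w) with hG₂
  have hG₂m : ∀ i, Measurable (G₂ i) := fun i =>
    (hGm i).mul (measurable_const.max (hXm i))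
  have hG₂K : ∀ i, i ∉ Y.D → ∀ w ∈ Y.Phase i, |G₂ i w| ≤ ‖u‖ * (‖u‖ * M + |c|) := by
    intro i hi w hw
    rw [hG₂]
    simp only
    rw [abs_mul]
    apply mul_le_mul (hGK i w) _ (abs_nonneg _) (norm_nonneg _)
    rw [abs_of_nonneg (le_max_left _ _)]
    have h1 := (le_abs_self _).trans (abs_dt_le u (Y.pos i w.1))
    have h2 := mul_le_mul_of_nonneg_left (hM i hi w.1 hw.1) (norm_nonneg u)
    have h3 := neg_abs_le c
    have h4 : 0 ≤ ‖u‖ * M := mul_nonneg (norm_nonneg _) hM0.le
    have h5 := abs_nonneg c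
    apply max_le (by linarith)
    rw [hX]
    simp only
    linarith
  have hstep : ∀ i j, ∀ᵐ w : ℝ × ℝ, w ∈ Y.S i → w ∈ Y.U i j → ∃ t : ℝ, 0 < t ∧
      G₂ j (Y.Ψ i j w) = G₂ i w + t * G i w ^ 2 := by
    intro i j
    filter_upwards [hterm i j, heq i j] with w h0 h0' h1 h2
    obtain ⟨t, ht, hx, hv⟩ := h0 h1 h2
    have h3 := h0' h1 h2
    have h4 := step_eq ht hx hv (g := G i w) rfl h3
    refine ⟨t, ht, ?_⟩
    rw [hG₂]
    simp only
    rw [h4, ← h3]
    ring
  have heq₂ := hg.recur hG₂m hG₂K (fun i j => by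
    filter_upwards [hstep i j] with w h0 h1 h2
    obtain ⟨t, ht, h3⟩ := h0 h1 h2
    have : 0 ≤ t * G i w ^ 2 := by positivity
    linarith)
  apply hg.ae_of_image (Q := fun i w => dt u (Y.pos i w.1) ≤ c)
  intro i j
  have hnull : ∀ᵐ w : ℝ × ℝ, ¬ (w ∈ Y.Phase i ∧ cr (Y.dir (i, w)) (I * u) = 0) := by
    rw [ae_iff]
    simpa only [not_not] using hg.null_parallel (mul_ne_zero I_ne_zero hu) i
  filter_upwards [hstep i j, heq₂ i j, hnull] with w h1 h2 h3 h4 h5
  obtain ⟨t, ht, h6⟩ := h1 h4 h5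
  have h7 := h2 h4 h5
  have h8 : t * G i w ^ 2 = 0 := by linarith
  have h9 : G i w = 0 := pow_eq_zero_iff (two_ne_zero) |>.1 ((mul_eq_zero.1 h8).resolve_left ht.ne')
  by_contra hcon
  have h10 : 0 < X i w := by
    rw [hX]
    simp only
    linarith [not_le.1 hcon]
  rw [hG] at h9
  simp only at h9
  rw [if_pos h10] at h9
  apply h3
  refine ⟨h4.1, ?_⟩
  rw [cr_I_right]
  exact h9

lemma mem_openSegment {j : ZMod n} {s : ℝ} (hj : j ∉ Y.D) (hs : s ∈ Ioo 0 (Y.len j)) :
    Y.pos j s ∈ openSegment ℝ (Y.p j) (Y.p (j + 1)) := by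
  obtain ⟨t, h1, h2, h3⟩ := hg.pos_comb hs hj
  refine ⟨1 - t, t, by linarith, h1, by ring, ?_⟩
  rw [h3]
  simp

theorem confines [NeZero n] : ∀ l : List (ℂ × ℝ), Confines Y.p Y.D l →
    ∀ i, ∀ᵐ w : ℝ × ℝ, w ∈ Y.S i → Y.pos i w.1 ∈ {x | ∀ q ∈ l, dt q.1 x ≤ q.2} := by
  intro l
  induction l with
  | nil =>
    intro _ i
    exact Eventually.of_forall fun w _ q hq => absurd hq (by simp)
  | cons q l ih =>
    rintro ⟨hl, hq, hF⟩ i
    have h1 := ih hl
    have h2 := hg.confine hq q.2 h1 (fun j hj s hs hR hc =>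
      hF j hj _ (hg.mem_openSegment hj hs) hR hc)
    filter_upwards [h1 i, h2 i] with w h3 h4 h5 q' hq'
    rcases List.mem_cons.1 hq' with rfl | h6
    · exact h4 h5
    · exact h3 h5 q' h6

end SG

end Pool.Agent.Lib.MP_19d7db_an
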