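import Pool.Agent.Lib.MP_19d7db_an_P.Final

/-!
# At most two neutral sides
-/

namespace Pool.Agent.Lib.MP_19d7db_an

theorem hyperbolic_of_two (n : ℕ) (hn : 3 ≤ n) (p : ZMod n → ℂ) (Ω : Set ℂ)
    (hdom : PolyDom p Ω) (D : Set (ZMod n)) (i j : ZMod n) (hij : ∀ k, k ∉ D → k = i ∨ k = j) :
    ∃ R : ℝ, ∀ ρ : ZMod n → ℝ, (∀ k ∈ D, R ≤ ρ k) →
      (Dom.mk (Table.mk p D ρ) Ω).Hyperbolic := by
  have hne : p (i + 1) - p i ≠ 0 := sub_ne_zero.2 (hdom.ne i).symm
  have h0 : cr (p (i + 1) - p i) (p (i + 1) - p i) = 0 := by simp only [cr]; ring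
  have h0' : cr (p (i + 1) - p i) (-(p (i + 1) - p i)) = 0 := by
    simp only [cr, Complex.neg_re, Complex.neg_im]; ring
  have h1 : cr (p (j + 1) - p j) (-(p (i + 1) - p i)) =
      -cr (p (j + 1) - p j) (p (i + 1) - p i) := by
    simp only [cr, Complex.neg_re, Complex.neg_im]; ring
  rcases le_total 0 (cr (p (j + 1) - p j) (p (i + 1) - p i)) with h | h
  · apply hyperbolic_of_confines n hn p Ω hdom D [] trivial (p (i + 1) - p i) 0 (Or.inl hne) le_rfl
    intro k hk x _ _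
    rw [zero_mul, add_zero]
    rcases hij k hk with rfl | rfl
    · exact h0.ge
    · exact h
  · apply hyperbolic_of_confines n hn p Ω hdom D [] trivial (-(p (i + 1) - p i)) 0
      (Or.inl (neg_ne_zero.2 hne)) le_rfl
    intro k hk x _ _
    rw [zero_mul, add_zero]
    rcases hij k hk with rfl | rfl
    · exact h0'.ge
    · rw [h1]; linarith

end Pool.Agent.Lib.MP_19d7db_an
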